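import Pool.Agent.Helper18.SV.Goals

/-!
Packet SV-PAIR (MP_cb0067_co).
-/

set_option autoImplicit false

open Finset
open scoped Pointwise

namespace Pool.Agent.Helper90.SV

open Pool.Agent.Helper95.SF Pool.Agent.Helper18.SV

universe u

theorem gen {K : Type u} [AddCommGroup K] [Finite K] {r : K}
    (h : AddSubgroup.closure ({r} : Set K) = ⊤) (b y : K) : ∃ n : ℕ, b + n • r = y := by
  have h1 : y - b ∈ AddSubgroup.closure ({r} : Set K) := by rw [h]; exact AddSubgroup.mem_top _
  rw [AddSubgroup.mem_closure_singleton] at h1
  obtain ⟨n, hn⟩ := h1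
  have hN : 0 < Nat.card K := Nat.card_pos
  have h2 : Nat.card K • r = 0 := card_nsmul_eq_zero'
  refine ⟨(n % (Nat.card K : ℤ)).toNat, ?_⟩
  have h3 : 0 ≤ n % (Nat.card K : ℤ) := Int.emod_nonneg _ (by omega)
  have h4 : (n % (Nat.card K : ℤ)).toNat • r = n • r := by
    rw [← natCast_zsmul, Int.toNat_of_nonneg h3]
    have h5 : n = n % (Nat.card K : ℤ) + (Nat.card K : ℤ) * (n / (Nat.card K : ℤ)) :=
      (Int.emod_add_mul_ediv n _).symm
    conv_rhs => rw [h5]
    rw [add_zsmul, mul_comm, mul_zsmul, natCast_zsmul, h2, smul_zero, add_zero]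
  rw [h4, hn]
  abel

theorem t : G_PAIR.{u} := by
  intro K _ _ _ r B hr hB hBu hcard
  obtain ⟨y, hy⟩ : ∃ y, y ∉ B := by
    by_contra h
    push Not at h
    exact hBu (Finset.eq_univ_iff_forall.2 h)
  -- at most one element leaves `B`
  have huniq : ∀ s1 ∈ B, ∀ s2 ∈ B, s1 + r ∉ B → s2 + r ∉ B → s1 = s2 := by
    intro s1 h1 s2 h2 h3 h4
    by_contra hne
    have hsub : insert (s1 + r) (insert (s2 + r) B) ⊆ ({0, r} : Finset K) + B := by
      intro z hz
      rw [Finset.mem_insert, Finset.mem_insert] at hz
      rw [Finset.mem_add]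
      rcases hz with rfl | rfl | hz
      · exact ⟨r, by simp, s1, h1, add_comm _ _⟩
      · exact ⟨r, by simp, s2, h2, add_comm _ _⟩
      · exact ⟨0, by simp, z, hz, zero_add _⟩
    have h5 := Finset.card_le_card hsub
    rw [Finset.card_insert_of_notMem, Finset.card_insert_of_notMem h4] at h5
    · omega
    · rw [Finset.mem_insert]
      rintro (h | h)
      · exact hne (add_right_cancel h)
      · exact h3 h
  -- the first element
  obtain ⟨x, hx, hxr⟩ : ∃ x ∈ B, x - r ∉ B := by
    by_contra h
    push Not at h
    obtain ⟨b, hb⟩ := hB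
    obtain ⟨n, hn⟩ := gen hr y b
    have h1 : ∀ i : ℕ, b - i • r ∈ B := by
      intro i
      induction i with
      | zero => simpa using hb
      | succ i ih =>
        have := h _ ih
        have e : b - (i + 1) • r = b - i • r - r := by rw [succ_nsmul]; abel
        rw [e]
        exact this
    apply hy
    have h2 := h1 n
    have e : b - n • r = y := by rw [← hn]; abel
    rwa [e] at h2
  have hex : ∃ c : ℕ, x + c • r ∉ B := by
    obtain ⟨n, hn⟩ := gen hr x (x - r)
    exact ⟨n, by rw [hn]; exact hxr⟩
  classical
  set c := Nat.find hex with hc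
  have hcs : x + c • r ∉ B := Nat.find_spec hex
  have hcm : ∀ i < c, x + i • r ∈ B := fun i hi => not_not.1 (Nat.find_min hex hi)
  have hc1 : 1 ≤ c := by
    by_contra h
    have h0 : c = 0 := by omega
    rw [h0, zero_nsmul, add_zero] at hcs
    exact hcs hx
  have hinj : Set.InjOn (fun i : ℕ => x + i • r) (Finset.range c : Set ℕ) := by
    have key : ∀ i j : ℕ, i < j → j < c → x + i • r ≠ x + j • r := by
      intro i j hij hj he
      have h1 : i • r = j • r := add_left_cancel he
      have h2 : (c - (j - i)) • r = c • r := by
        have e1 : c = (c - (j - i)) + (j - i) := by omega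
        have e2 : j = i + (j - i) := by omega
        have h3 : (j - i) • r = 0 := by
          have h4 : i • r = i • r + (j - i) • r := by
            rw [← add_nsmul, ← e2]
            exact h1
          exact left_eq_add.1 h4
        conv_rhs => rw [e1]
        rw [add_nsmul, h3, add_zero]
      have h5 := hcm (c - (j - i)) (by omega)
      rw [h2] at h5
      exact hcs h5
    intro i hi j hj he
    rw [Finset.coe_range, Set.mem_Iio] at hi hj
    rcases lt_trichotomy i j with h | h | h
    · exact absurd he (key i j h hj)
    · exact h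
    · exact absurd he.symm (key j i h hi)
  have hBp : B = prog x r c := by
    unfold prog
    apply Finset.Subset.antisymm
    · intro b hb
      have hexb : ∃ j : ℕ, b + j • r ∉ B := by
        obtain ⟨n, hn⟩ := gen hr b y
        exact ⟨n, by rw [hn]; exact hy⟩
      set j := Nat.find hexb with hj
      have hjs : b + j • r ∉ B := Nat.find_spec hexb
      have hjm : ∀ i < j, b + i • r ∈ B := fun i hi => not_not.1 (Nat.find_min hexb hi)
      have hj1 : 1 ≤ j := by
        by_contra h
        have h0 : j = 0 := by omega
        rw [h0, zero_nsmul, add_zero] at hjs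
        exact hjs hb
      have e1 : b + (j - 1) • r + r = b + j • r := by
        rw [add_assoc, ← succ_nsmul, Nat.sub_add_cancel hj1]
      have e2 : x + (c - 1) • r + r = x + c • r := by
        rw [add_assoc, ← succ_nsmul, Nat.sub_add_cancel hc1]
      have h1 := huniq _ (hjm (j - 1) (by omega)) _ (hcm (c - 1) (by omega))
        (by rw [e1]; exact hjs) (by rw [e2]; exact hcs)
      rw [Finset.mem_image]
      by_cases hjc : j ≤ c
      · refine ⟨c - j, Finset.mem_range.2 (by omega), ?_⟩
        have e3 : c - 1 = (c - j) + (j - 1) := by omega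
        rw [e3, add_nsmul, ← add_assoc] at h1
        exact (add_right_cancel h1).symm
      · exfalso
        apply hxr
        have e4 : j - 1 = (j - 1 - c) + c := by omega
        have h2 := hjm (j - 1 - c) (by omega)
        have h3 : b + (j - 1 - c) • r = x - r := by
          rw [e4, add_nsmul] at h1
          have e5 : c • r = (c - 1) • r + r := by
            rw [← succ_nsmul, Nat.sub_add_cancel hc1]
          rw [e5] at h1
          have h4 : b + (j - 1 - c) • r + r + (c - 1) • r = x + (c - 1) • r := by
            rw [← h1]
            have e6 : j - 1 - c + c - c = j - 1 - c := by omega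
            abel
          have h5 := add_right_cancel h4
          rw [← h5]
          abel
        rw [h3] at h2
        exact h2
    · intro z hz
      obtain ⟨i, hi, rfl⟩ := Finset.mem_image.1 hz
      exact hcm i (Finset.mem_range.1 hi)
  refine ⟨x, r, c, hBp, ?_⟩
  rw [hBp]
  unfold prog
  rw [Finset.card_image_of_injOn hinj, Finset.card_range]

end Pool.Agent.Helper90.SV
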